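import Pool.Agent.Lib_helper72.K7S.T5
import Pool.Agent.Lib_helper72.K7.I

/-!
# The curve 26b1: the classes, the unit equation
-/

set_option autoImplicit false
set_option linter.unusedSectionVars false
set_option linter.unusedSimpArgs false
set_option linter.unusedVariables false

namespace Pool.Agent.K7

open Polynomial WeierstrassCurve.Affine WithZero TN
open KC72 K7S

/-- `2 ^ a` -/
def t2q (a : ℤ) : Mo := (false, [0, 0, 0, 0, 0, 0, a])

/-- the units -/
def sU : ℕ → Mo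
  | 0 => (false, [1, 0, 0, 0, 0, 0, 0])
  | 1 => (false, [0, 1, 0, 0, 0, 0, 0])
  | 2 => (false, [0, 0, 1, 0, 0, 0, 0])
  | 3 => (false, [0, 0, 0, 1, 0, 0, 0])
  | 4 => (false, [0, 0, 0, 0, 1, 0, 0])
  | _ => (false, [0, 0, 0, 0, 0, 1, 0])

/-- the units after `i` translations -/
def sD (i j : ℕ) : Mo := dd (t2q 2) (t2q 1) (t2q 0) sU i j

/-- the classes -/
def tcl (i : ℕ) : ℕ → Mo × Mo
  | 0 => (((sD i 2).mul (sD i 2)).div (t2q 2), (((sD i 0).mul (sD i 1)).div (t2q 2)).neg)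
  | 1 => ((t2q 2).div (sD i 3),
      ((sD i 0).mul ((sD i 2).mul (sD i 2))).div ((sD i 3).mul (sD i 5)))
  | 2 => ((t2q 2).div (sD i 5),
      ((sD i 0).mul ((sD i 0).mul (sD i 1))).div ((sD i 3).mul (sD i 5)))
  | 3 => ((((t2q 3).mul (sD i 2)).div ((sD i 1).mul (sD i 1))).neg,
      ((sD i 0).mul (sD i 0)).div ((sD i 1).mul (sD i 1)))
  | 4 => (((sD i 0).mul ((sD i 2).mul (sD i 2))).div ((sD i 1).mul (sD i 5)),
      ((sD i 5).div (sD i 1)).neg)
  | 5 => (((sD i 2).div (t2q 1)).neg, (sD i 0).div (t2q 1))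
  | 6 => ((sD i 2).div (t2q 1), ((sD i 1).div (t2q 1)).neg)
  | 7 => (((t2q 2).div (sD i 1)).neg, (sD i 0).div (sD i 1))
  | _ => ((((sD i 0).mul (t2q 1)).div (sD i 4)).neg, (sD i 3).div (sD i 4))

/-- the type and the translation of each class -/
def tix : List (ℕ × ℕ × ℕ) := [(0, 0, 0), (0, 1, 3), (0, 2, 3), (3, 0, 2), (6, 3, 4), (4, 4, 3), (4, 1, 5),
  (2, 3, 1), (1, 1, 0), (3, 2, 0), (0, 5, 0), (0, 6, 0), (4, 0, 2), (6, 2, 4),
  (0, 7, 2), (3, 4, 4), (1, 3, 5), (0, 3, 2), (5, 3, 0), (5, 0, 5), (1, 0, 4),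
  (3, 6, 2), (3, 5, 2), (6, 8, 2), (3, 3, 3), (1, 2, 0), (1, 4, 5), (6, 0, 5),
  (6, 5, 5), (2, 8, 0), (0, 4, 0), (5, 4, 1), (6, 7, 4), (2, 0, 4), (2, 6, 4),
  (2, 7, 0), (5, 8, 4), (2, 2, 5), (1, 8, 5), (5, 6, 5), (1, 7, 5), (1, 5, 4),
  (4, 6, 2), (4, 5, 2), (0, 8, 2), (6, 4, 3), (4, 8, 0), (4, 3, 3), (2, 4, 0),
  (5, 7, 0), (6, 1, 4), (5, 1, 0), (3, 1, 5), (6, 6, 0), (5, 2, 4), (2, 5, 2),
  (5, 5, 5), (1, 6, 4), (3, 8, 0), (4, 7, 0), (2, 1, 5), (4, 2, 4), (3, 7, 0)]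

lemma tix_ok : (List.range 63).all (fun c =>
    eqM (c26_cls.getD c default).1 (orb6 (tcl (tix.getD c default).1 (tix.getD c default).2.1).1
      (tcl (tix.getD c default).1 (tix.getD c default).2.1).2 (tix.getD c default).2.2) &&
    eqM (c26_cls.getD c default).2 (orb6 (tcl (tix.getD c default).1 (tix.getD c default).2.1).1
      (tcl (tix.getD c default).1 (tix.getD c default).2.1).2
      (cm6 (tix.getD c default).2.2))) = true := by decide +kernel

lemma c26_len : c26_cls.length = 63 := by decide +kernel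

lemma dot6 (a0 a1 a2 a3 a4 a5 : ℤ) (l : List ℤ) : dot [a0, a1, a2, a3, a4, a5] l =
    a0 * l.getD 0 0 + a1 * l.getD 1 0 + a2 * l.getD 2 0 + a3 * l.getD 3 0 + a4 * l.getD 4 0 +
      a5 * l.getD 5 0 := by
  rcases l with _ | ⟨l0, _ | ⟨l1, _ | ⟨l2, _ | ⟨l3, _ | ⟨l4, _ | ⟨l5, l⟩⟩⟩⟩⟩⟩ <;>
    simp [dot] <;> ring

lemma divl_eq (l : List ℤ) :
    divl l = tl (fun m => Dn (fun j : Fin 6 => l.getD j.val 0) (-m)) := by
  have key : ∀ m : Fin 7, dot [oU 0 (-m), oU 1 (-m), oU 2 (-m), oU 3 (-m), oU 4 (-m), oU 5 (-m)] l =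
      Dn (fun j : Fin 6 => l.getD j.val 0) (-m) := by
    intro m
    rw [dot6]
    unfold Dn
    rw [Fin.sum_univ_six]
    show _ = l.getD 0 0 * oU 0 (-m) + l.getD 1 0 * oU 1 (-m) + l.getD 2 0 * oU 2 (-m) +
      l.getD 3 0 * oU 3 (-m) + l.getD 4 0 * oU 4 (-m) + l.getD 5 0 * oU 5 (-m)
    ring
  unfold divl
  rw [orow_eq, List.map_map]
  show [dot _ l, dot _ l, dot _ l, dot _ l, dot _ l, dot _ l, dot _ l] = _
  simp only [key]
  rfl

lemma tl_inj {D D' : Fin 7 → ℤ} (h : tl D = tl D') (s : Fin 7) : D s = D' s := by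
  unfold tl at h
  simp only [List.cons.injEq, and_true] at h
  obtain ⟨h0, h1, h2, h3, h4, h5, h6⟩ := h
  fin_cases s <;> assumption

section

variable {F : Type*} [Field F]

lemma evl_ofFn {n : ℕ} (g : Fin n → F) (l : List ℤ) :
    evl (List.ofFn g) l = ∏ j : Fin n, g j ^ (l.getD j.val 0) := by
  induction n generalizing l with
  | zero => simp
  | succ n ih =>
    rw [List.ofFn_succ, Fin.prod_univ_succ]
    cases l with
    | nil => simp
    | cons x l =>
      rw [evl_cons, ih]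
      simp

lemma orb6_orb {g : List F} (hg : ∀ x ∈ g, x ≠ 0) {f h : Mo} (H : KC72.ev g f + KC72.ev g h = 1)
    (σ : ℕ) : Orb (KC72.ev g f) (KC72.ev g (orb6 f h σ)) := by
  have hf := ev_ne hg f
  have hh := ev_ne hg h
  have e1 : KC72.ev g h = 1 - KC72.ev g f := by linear_combination H
  rw [e1] at hh
  have hh' : KC72.ev g f - 1 ≠ 0 := fun h' => hh (by linear_combination -h')
  unfold Orb
  rcases σ with _ | _ | _ | _ | _ | σ
  · left; rfl
  · right; left; exact e1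
  · right; right; left
    show KC72.ev g f.inv = _
    rw [ev_inv, one_div]
  · right; right; right; left
    show KC72.ev g (h.div f).neg = _
    rw [KC72.ev_neg, ev_div hg, e1]
    field_simp
    ring
  · right; right; right; right; left
    show KC72.ev g h.inv = _
    rw [ev_inv, e1, one_div]
  · right; right; right; right; right
    show KC72.ev g (f.div h).neg = _
    rw [KC72.ev_neg, ev_div hg, e1, eq_div_iff hh', neg_mul, div_mul_eq_mul_div, neg_eq_iff_eq_neg,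
      div_eq_iff hh]
    ring

lemma Orb.compl' {u f : F} (h0 : u ≠ 0) (h1 : u ≠ 1) (h : Orb u f) : Orb u (1 - f) := by
  have a : 1 - u ≠ 0 := sub_ne_zero.mpr (Ne.symm h1)
  have b : u - 1 ≠ 0 := sub_ne_zero.mpr h1
  unfold Orb at h ⊢
  rcases h with h | h | h | h | h | h
  · right; left; rw [h]
  · left; rw [h]; ring
  · right; right; right; left; rw [h]
  · right; right; left; rw [h]; ring
  · right; right; right; right; right; rw [h]; field_simp; ring
  · right; right; right; right; left; rw [h]; field_simp; ring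

lemma Orb.inv' {u f : F} (h0 : u ≠ 0) (h1 : u ≠ 1) (h : Orb u f) : Orb u f⁻¹ := by
  have a : 1 - u ≠ 0 := sub_ne_zero.mpr (Ne.symm h1)
  have b : u - 1 ≠ 0 := sub_ne_zero.mpr h1
  have c : 1 - 1 / u = (u - 1) / u := by field_simp
  unfold Orb at h ⊢
  rcases h with h | h | h | h | h | h
  · right; right; left; rw [h, one_div]
  · right; right; right; right; left; rw [h, one_div]
  · left; rw [h, one_div, inv_inv]
  · right; right; right; right; right; rw [h, c, inv_div]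
  · right; left; rw [h, one_div, inv_inv]
  · right; right; right; left; rw [h, c, inv_div]

end

end Pool.Agent.K7
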