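import Pool.Agent.Lib_helper72.K7S.T7

/-!
# The curve 26b1: the solutions, the unit equation, closed elements
-/

set_option autoImplicit false
set_option linter.unusedSectionVars false
set_option linter.unusedSimpArgs false
set_option linter.unusedVariables false

open scoped TensorProduct

namespace Pool.Agent.K7

open Polynomial WeierstrassCurve.Affine WithZero TN MK4
open KC72 K7S

/-- one of three disjoint sets of residues has at most two elements -/
lemma small3 (P Q R : Fin 7 → Prop) (hP : ∃ s, P s) (hQ : ∃ s, Q s) (hR : ∃ s, R s)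
    (h1 : ∀ s, ¬ (P s ∧ Q s)) (h2 : ∀ s, ¬ (P s ∧ R s)) (h3 : ∀ s, ¬ (Q s ∧ R s)) :
    (∃ a b, P a ∧ P b ∧ ∀ s, P s → s = a ∨ s = b) ∨
    (∃ a b, Q a ∧ Q b ∧ ∀ s, Q s → s = a ∨ s = b) ∨
    ∃ a b, R a ∧ R b ∧ ∀ s, R s → s = a ∨ s = b := by
  classical
  have two : ∀ P : Fin 7 → Prop, (∃ s, P s) → (Finset.univ.filter P).card ≤ 2 →
      ∃ a b, P a ∧ P b ∧ ∀ s, P s → s = a ∨ s = b := by
    intro P hP hc
    obtain ⟨a, ha⟩ := hP
    by_cases hb : ∃ b, P b ∧ b ≠ a
    · obtain ⟨b, hb, hba⟩ := hb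
      refine ⟨a, b, ha, hb, fun s hs => ?_⟩
      by_contra hne
      push Not at hne
      have h4 : ({a, b, s} : Finset (Fin 7)) ⊆ Finset.univ.filter P := by
        intro z hz
        simp only [Finset.mem_insert, Finset.mem_singleton] at hz
        rcases hz with rfl | rfl | rfl <;> simp [*]
      have h5 := Finset.card_le_card h4
      rw [Finset.card_eq_three.mpr ⟨a, b, s, Ne.symm hba, Ne.symm hne.1, Ne.symm hne.2, rfl⟩] at h5
      omega
    · push Not at hb
      exact ⟨a, a, ha, ha, fun s hs => Or.inl (hb s hs)⟩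
  by_contra hcon
  push Not at hcon
  obtain ⟨c1, c2, c3⟩ := hcon
  have d1 : 3 ≤ (Finset.univ.filter P).card := by
    by_contra hc
    obtain ⟨a, b, ha, hb, h⟩ := two P hP (by omega)
    obtain ⟨s, hs, q1, q2⟩ := c1 a b ha hb
    exact (h s hs).elim q1 q2
  have d2 : 3 ≤ (Finset.univ.filter Q).card := by
    by_contra hc
    obtain ⟨a, b, ha, hb, h⟩ := two Q hQ (by omega)
    obtain ⟨s, hs, q1, q2⟩ := c2 a b ha hb
    exact (h s hs).elim q1 q2
  have d3 : 3 ≤ (Finset.univ.filter R).card := by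
    by_contra hc
    obtain ⟨a, b, ha, hb, h⟩ := two R hR (by omega)
    obtain ⟨s, hs, q1, q2⟩ := c3 a b ha hb
    exact (h s hs).elim q1 q2
  have e1 : Disjoint (Finset.univ.filter P) (Finset.univ.filter Q) := by
    rw [Finset.disjoint_filter]; exact fun s _ hs hs' => h1 s ⟨hs, hs'⟩
  have e2 : Disjoint (Finset.univ.filter P ∪ Finset.univ.filter Q) (Finset.univ.filter R) := by
    rw [Finset.disjoint_union_left, Finset.disjoint_filter, Finset.disjoint_filter]
    exact ⟨fun s _ hs hs' => h2 s ⟨hs, hs'⟩, fun s _ hs hs' => h3 s ⟨hs, hs'⟩⟩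
  have e3 := Finset.card_le_univ ((Finset.univ.filter P ∪ Finset.univ.filter Q) ∪
    Finset.univ.filter R)
  rw [Finset.card_union_of_disjoint e2, Finset.card_union_of_disjoint e1] at e3
  simp only [Fintype.card_fin] at e3
  omega

lemma ex_pos {D : Fin 7 → ℤ} (hs : ∑ s, D s = 0) (h : ∃ s, D s ≠ 0) : ∃ s, 1 ≤ D s := by
  by_contra hc
  push Not at hc
  obtain ⟨s, hs'⟩ := h
  have h2 : ∑ s, D s < 0 := by
    refine Finset.sum_neg' (fun i _ => by have := hc i; omega) ⟨s, Finset.mem_univ _, ?_⟩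
    have := hc s
    omega
  omega

lemma ex_neg {D : Fin 7 → ℤ} (hs : ∑ s, D s = 0) (h : ∃ s, D s ≠ 0) : ∃ s, D s ≤ -1 := by
  obtain ⟨s, h2⟩ := ex_pos (D := fun s => - D s) (by rw [Finset.sum_neg_distrib, hs, neg_zero])
    (by obtain ⟨s, hs⟩ := h; exact ⟨s, neg_ne_zero.mpr hs⟩)
  exact ⟨s, by omega⟩

section

variable {k : Type*} [Field k] {F : Type*} [Field F] [Algebra k F] {x y : F}

lemma mon_neg [CharZero k] (h : Gen (bb (2 : k)) (cc (2 : k)) x y) (e : Fin 7 → ℤ) :
    mon (2 : k) x y (fun i => - e i) = (mon (2 : k) x y e)⁻¹ := by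
  unfold mon
  rw [← Finset.prod_inv_distrib]
  exact Finset.prod_congr rfl fun i _ => zpow_neg _ _

lemma mon_sub [CharZero k] (h : Gen (bb (2 : k)) (cc (2 : k)) x y) (e e' : Fin 7 → ℤ) :
    mon (2 : k) x y (fun i => e' i - e i) = mon (2 : k) x y e' / mon (2 : k) x y e := by
  unfold mon
  rw [← Finset.prod_div_distrib]
  exact Finset.prod_congr rfl fun i _ =>
    zpow_sub₀ (XF_ne two_ne_zero (by norm_num) h i) _ _

lemma mon_ne [CharZero k] (h : Gen (bb (2 : k)) (cc (2 : k)) x y) (e : Fin 7 → ℤ) :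
    mon (2 : k) x y e ≠ 0 :=
  Finset.prod_ne_zero_iff.mpr fun i _ => zpow_ne_zero _ (XF_ne two_ne_zero (by norm_num) h i)

/-- **the unit equation on the curve 26b1** -/
theorem unit2 [CharZero k] (h : Gen (bb (2 : k)) (cc (2 : k)) x y)
    (HS : Sols (List.ofFn (G2 k x y)) c26_cls) {c₀ c₁ : k} (h0 : c₀ ≠ 0) (h1 : c₁ ≠ 0)
    {e e' : Fin 7 → ℤ}
    (hu : algebraMap k F c₀ * mon (2 : k) x y e + algebraMap k F c₁ * mon (2 : k) x y e' = 1) :
    (∃ s : k, algebraMap k F c₀ * mon (2 : k) x y e = algebraMap k F s) ∨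
    ∃ p ∈ c26_cls, Orb (KC72.ev (List.ofFn (G2 k x y)) p.1)
      (algebraMap k F c₀ * mon (2 : k) x y e) := by
  have n0 : algebraMap k F c₀ ≠ 0 := (_root_.map_ne_zero _).mpr h0
  have hg := G2l_ne h
  have m0 := mon_ne h e
  by_cases he : ∃ s, OO e s ≠ 0
  · by_cases he' : ∃ s, OO e' s ≠ 0
    · right
      have B := (shp h h0 h1 hu he').alt
      have ne : ∀ p ∈ c26_cls, KC72.ev (List.ofFn (G2 k x y)) p.1 ≠ 0 ∧
          KC72.ev (List.ofFn (G2 k x y)) p.1 ≠ 1 := by
        intro p hp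
        refine ⟨ev_ne hg _, fun h2 => ?_⟩
        have h3 := HS p hp
        rw [h2] at h3
        exact ev_ne hg p.2 (by linear_combination h3)
      obtain ⟨a, b, ha, hb, hab⟩ | ⟨a, b, ha, hb, hab⟩ | ⟨a, b, ha, hb, hab⟩ :=
        small3 (fun s => 1 ≤ OO e s) (fun s => 1 ≤ OO e' s) (fun s => OO e s ≤ -1)
          (ex_pos (sum_OO e) he) (ex_pos (sum_OO e') he') (ex_neg (sum_OO e) he)
          (fun s hs => by have := B s; have := hs.1; have := hs.2; omega)
          (fun s hs => by have := hs.1; have := hs.2; omega)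
          (fun s hs => by have := B s; have := hs.1; have := hs.2; omega)
      · exact t2_id h HS hu he (t2_look h h0 h1 hu he' ha hb hab)
      · have hu' : algebraMap k F c₁ * mon (2 : k) x y e' +
            algebraMap k F c₀ * mon (2 : k) x y e = 1 := by rw [add_comm]; exact hu
        obtain ⟨p, hp, h2⟩ := t2_id h HS hu' he' (t2_look h h1 h0 hu' he ha hb hab)
        refine ⟨p, hp, ?_⟩
        have h3 := Orb.compl' (ne p hp).1 (ne p hp).2 h2
        have h4 : algebraMap k F c₀ * mon (2 : k) x y e =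
            1 - algebraMap k F c₁ * mon (2 : k) x y e' := by linear_combination hu
        rw [h4]
        exact h3
      · have hu' : algebraMap k F c₀⁻¹ * mon (2 : k) x y (fun i => - e i) +
            algebraMap k F (-(c₁ * c₀⁻¹)) * mon (2 : k) x y (fun i => e' i - e i) = 1 := by
          rw [mon_neg h, mon_sub h, map_neg, map_mul, map_inv₀]
          field_simp
          linear_combination -hu
        have o1 : ∀ s, OO (fun i => - e i) s = - OO e s := by
          intro s; unfold OO; ring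
        have o2 : ∀ s, OO (fun i => e' i - e i) s = OO e' s - OO e s := by
          intro s; unfold OO; ring
        have q1 : ∃ s, OO (fun i => - e i) s ≠ 0 := by
          obtain ⟨s, hs⟩ := he
          exact ⟨s, by rw [o1]; exact neg_ne_zero.mpr hs⟩
        have q2 : ∃ s, OO (fun i => e' i - e i) s ≠ 0 := by
          obtain ⟨s, hs⟩ := ex_pos (sum_OO e) he
          refine ⟨s, ?_⟩
          rw [o2]
          have := B s
          omega
        obtain ⟨p, hp, h2⟩ := t2_id h HS hu' q1 (t2_look h (inv_ne_zero h0)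
          (neg_ne_zero.mpr (mul_ne_zero h1 (inv_ne_zero h0))) hu' q2 (a := a) (b := b)
          (by rw [o1]; omega) (by rw [o1]; omega) (fun s hs => hab s (by rw [o1] at hs; omega)))
        refine ⟨p, hp, ?_⟩
        have h3 := Orb.inv' (ne p hp).1 (ne p hp).2 h2
        rw [mon_neg h, map_inv₀, ← mul_inv, inv_inv] at h3
        exact h3
    · left
      push Not at he'
      rw [mon_const (t := (2 : k)) two_ne_zero (by norm_num) h he'] at hu
      refine ⟨1 - c₁ * ∏ i, lam 2 i ^ e' i, ?_⟩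
      rw [map_sub, map_one, map_mul]
      linear_combination hu
  · left
    push Not at he
    rw [mon_const (t := (2 : k)) two_ne_zero (by norm_num) h he]
    exact ⟨c₀ * ∏ i, lam 2 i ^ e i, by rw [map_mul]⟩

/-! ### the classes are solutions -/

lemma ev_t2q (a : ℤ) : KC72.ev (List.ofFn (G2 k x y)) (t2q a) = algebraMap k F 2 ^ a := by
  unfold t2q
  rw [ev_G2]
  simp [M7, Fin.prod_univ_succ]

lemma ev_sU (j : Fin 6) : KC72.ev (List.ofFn (G2 k x y)) (sU j) = uF (2 : k) x y j := by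
  fin_cases j
  · show KC72.ev _ (false, [1, 0, 0, 0, 0, 0, 0]) = x
    rw [ev_G2]; simp [M7, Fin.prod_univ_succ, uF]
  · show KC72.ev _ (false, [0, 1, 0, 0, 0, 0, 0]) = x - algebraMap k F (bb 2)
    rw [ev_G2]; simp [M7, Fin.prod_univ_succ, uF]
  · show KC72.ev _ (false, [0, 0, 1, 0, 0, 0, 0]) = x - algebraMap k F (cc 2)
    rw [ev_G2]; simp [M7, Fin.prod_univ_succ, uF]
  · show KC72.ev _ (false, [0, 0, 0, 1, 0, 0, 0]) = y
    rw [ev_G2]; simp [M7, Fin.prod_univ_succ, uF]
  · show KC72.ev _ (false, [0, 0, 0, 0, 1, 0, 0]) = y - algebraMap k F (cc 2) * x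
    rw [ev_G2]; simp [M7, Fin.prod_univ_succ, uF]
  · show KC72.ev _ (false, [0, 0, 0, 0, 0, 1, 0]) = y - algebraMap k F (2 - 1) * x
    rw [ev_G2]; simp [M7, Fin.prod_univ_succ, uF]

lemma bb2 : bb (2 : k) = 4 := by unfold bb; norm_num

lemma cc2 : cc (2 : k) = 2 := by unfold cc; norm_num

lemma tcl_sol [CharZero k] (h : Gen (bb (2 : k)) (cc (2 : k)) x y) (i r : ℕ) :
    KC72.ev (List.ofFn (G2 k x y)) (tcl i r).1 + KC72.ev (List.ofFn (G2 k x y)) (tcl i r).2 =
      1 := by
  have hg := G2l_ne h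
  obtain ⟨x', y', h', -, hd⟩ := shiftM (t := (2 : k)) two_ne_zero (by norm_num) h hg
    (B := t2q 2) (C := t2q 1) (T1 := t2q 0) (u := sU)
    (by rw [ev_t2q, bb2, map_ofNat, map_ofNat]; norm_num)
    (by rw [ev_t2q, cc2, map_ofNat]; norm_num)
    (by rw [ev_t2q]; norm_num) ev_sU i
  have b4 : algebraMap k F (bb 2) = 4 := by rw [bb2, map_ofNat]
  have c2 : algebraMap k F (cc 2) = 2 := by rw [cc2, map_ofNat]
  have t1 : algebraMap k F (2 - 1) = 1 := by norm_num
  have d0 : KC72.ev (List.ofFn (G2 k x y)) (sD i 0) = x' := hd 0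
  have d1 : KC72.ev (List.ofFn (G2 k x y)) (sD i 1) = x' - 4 := by
    rw [← b4]; exact hd 1
  have d2 : KC72.ev (List.ofFn (G2 k x y)) (sD i 2) = x' - 2 := by
    rw [← c2]; exact hd 2
  have d3 : KC72.ev (List.ofFn (G2 k x y)) (sD i 3) = y' := hd 3
  have d4 : KC72.ev (List.ofFn (G2 k x y)) (sD i 4) = y' - 2 * x' := by
    rw [← c2]; exact hd 4
  have d5 : KC72.ev (List.ofFn (G2 k x y)) (sD i 5) = y' - x' := by
    have : y' - x' = y' - algebraMap k F (2 - 1) * x' := by rw [t1, one_mul]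
    rw [this]; exact hd 5
  have heq := h'.eq
  rw [b4, c2] at heq
  have z0 : x' ≠ 0 := by rw [← d0]; exact ev_ne hg _
  have z1 : x' - 4 ≠ 0 := by rw [← d1]; exact ev_ne hg _
  have z2 : x' - 2 ≠ 0 := by rw [← d2]; exact ev_ne hg _
  have z3 : y' ≠ 0 := by rw [← d3]; exact ev_ne hg _
  have z4 : y' - 2 * x' ≠ 0 := by rw [← d4]; exact ev_ne hg _
  have z5 : y' - x' ≠ 0 := by rw [← d5]; exact ev_ne hg _
  have : CharZero F := charZero_of_injective_algebraMap (algebraMap k F).injective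
  have p1 : KC72.ev (List.ofFn (G2 k x y)) (t2q 1) = 2 := by
    rw [ev_t2q, map_ofNat]; norm_num
  have p2 : KC72.ev (List.ofFn (G2 k x y)) (t2q 2) = 4 := by
    rw [ev_t2q, map_ofNat]; norm_num
  have p3 : KC72.ev (List.ofFn (G2 k x y)) (t2q 3) = 8 := by
    rw [ev_t2q, map_ofNat]; norm_num
  rcases r with _ | _ | _ | _ | _ | _ | _ | _ | r
  all_goals
    unfold tcl
    simp only [KC72.ev_neg, ev_div hg, ev_mul hg, d0, d1, d2, d3, d4, d5, p1, p2, p3]
    first
      | (rw [← neg_div, ← add_div, div_eq_one_iff_eq z4]; ring1)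
      | skip
    try field_simp
    try first
      | ring1
      | linear_combination heq
      | linear_combination -heq
      | linear_combination x' * heq
      | linear_combination -x' * heq
      | linear_combination y' * heq
      | linear_combination -y' * heq

/-- **the classes are solutions** -/
theorem sols2 [CharZero k] (h : Gen (bb (2 : k)) (cc (2 : k)) x y) :
    Sols (List.ofFn (G2 k x y)) c26_cls := by
  intro p hp
  have hg := G2l_ne h
  obtain ⟨c, hc, hcp⟩ := List.getElem_of_mem hp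
  have h3 : p = c26_cls.getD c default := by rw [List.getD_eq_getElem _ _ hc, hcp]
  rw [c26_len] at hc
  have h2 := (List.all_eq_true.mp tix_ok) c (List.mem_range.mpr hc)
  rw [Bool.and_eq_true] at h2
  rw [h3, ev_eqM hg h2.1, ev_eqM hg h2.2]
  exact orb6_add hg (tcl_sol h _ _) _

/-- **the unit equation on the curve 26b1**, for supported functions -/
theorem unit2' [CharZero k] (h : Gen (bb (2 : k)) (cc (2 : k)) x y) {f : F}
    (hf : U7 (2 : k) x y f) (hf1 : U7 (2 : k) x y (1 - f)) :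
    (∃ c : k, f = algebraMap k F c) ∨
    ∃ p ∈ c26_cls, Orb (KC72.ev (List.ofFn (G2 k x y)) p.1) f := by
  obtain ⟨d, n, hd, rfl⟩ := hf
  obtain ⟨d', n', hd', h2⟩ := hf1
  have l0 : ∀ n : Fin 6 → ℤ, (∏ i, lam (2 : k) i ^ SE n i)⁻¹ ≠ 0 := fun n =>
    inv_ne_zero (Finset.prod_ne_zero_iff.mpr fun i _ =>
      zpow_ne_zero _ (lam_ne two_ne_zero (by norm_num) i))
  have key := unit2 h (sols2 h) (mul_ne_zero hd (l0 n)) (mul_ne_zero hd' (l0 n'))
    (e := SE n) (e' := SE n')
  rw [map_mul, map_mul, mul_assoc, mul_assoc, ← M7_eq two_ne_zero (by norm_num) h,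
    ← M7_eq two_ne_zero (by norm_num) h] at key
  exact key (by rw [← h2]; ring)

lemma G2_const (i : Fin 7) (hi : 6 ≤ i.val) : ∃ c : k, G2 k x y i = algebraMap k F c := by
  fin_cases i <;> simp at hi
  exact ⟨2, rfl⟩

lemma G2_hI [CharZero k] (h : Gen (bb (2 : k)) (cc (2 : k)) x y) :
    ∀ q : Fin 7 → ℚ, ∑ i, q i • lg (G2 k x y i) ∈ V0 k F → ∀ i : Fin 7, i.val < 6 → q i = 0 := by
  have : CharZero F := charZero_of_injective_algebraMap (algebraMap k F).injective
  intro q hq i hi
  refine hI_of (k := k) (by norm_num) (G2 k x y) (G2_ne h) ?_ ?_ q hq i hi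
  · intro i hi
    exact G2_const i hi
  · intro e c _ he
    apply M7_const (t := (2 : k)) two_ne_zero (by norm_num) h (n := e) (s := c)
    rw [← he]
    unfold M7
    refine Finset.prod_congr rfl fun j _ => ?_
    fin_cases j <;> rfl

lemma G2_hJ [CharZero k] (h : Gen (bb (2 : k)) (cc (2 : k)) x y) :
    LinearIndependent ℚ (fun i => lg (G2 k x y i)) := by
  have : CharZero F := charZero_of_injective_algebraMap (algebraMap k F).injective
  refine hJ_of (k := k) (r := 6) (by norm_num) (G2 k x y) (G2_ne h) (G2_hI h) ?_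
  intro e he hp
  have e0 := he 0 (by decide)
  have e1 := he 1 (by decide)
  have e2 := he 2 (by decide)
  have e3 := he 3 (by decide)
  have e4 := he 4 (by decide)
  have e5 := he 5 (by decide)
  rw [Fin.prod_univ_seven, e0, e1, e2, e3, e4, e5] at hp
  simp only [zpow_zero, one_mul] at hp
  have h6 : G2 k x y 6 = algebraMap k F 2 := rfl
  rw [h6, ← map_zpow₀] at hp
  have hp2 : (2 : k) ^ e 6 = 2 ^ (0 : ℤ) := (algebraMap k F).injective (by rw [hp]; simp)
  have e6 := two_inj hp2
  funext i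
  fin_cases i <;> assumption

/-- **closed elements on the curve 26b1** -/
theorem closed2 [CharZero k] (h : Gen (bb (2 : k)) (cc (2 : k)) x y) {z : HK F}
    (hz : z ∈ Cu7 (2 : k) x y) (hc : Closed z) :
    ∃ β : ℚ, (KC k F).mkQ z =
      β • pl (EB c26.toCert k (List.ofFn (G2 k x y))) c26.toCert.xi := by
  have : CharZero F := charZero_of_injective_algebraMap (algebraMap k F).injective
  exact closed_of_cert' c26.toCert c26_ok (n := 7) (r := 6) rfl rfl (cls := c26_cls) rfl
    (G := G2 k x y) (G2_ne h) (fun i hi => G2_const i hi) (G2_hI h) (G2_hJ h) (sols2 h)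
    (U7 (2 : k) x y) (fun f hf hf1 => unit2' h hf hf1) hz hc

end

end Pool.Agent.K7
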