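import Pool.Agent.Lib_helper72.K7S.T2

/-!
# The curve 26b1: enumeration of vectors
-/

set_option autoImplicit false
set_option linter.unusedSectionVars false
set_option linter.unusedSimpArgs false
set_option linter.unusedVariables false

namespace Pool.Agent.K7

/-- the scalar product -/
def dot : List ℤ → List ℤ → ℤ
  | a :: l, b :: m => a * b + dot l m
  | _, _ => 0

/-- the list of values -/
def tl (D : Fin 7 → ℤ) : List ℤ := [D 0, D 1, D 2, D 3, D 4, D 5, D 6]

lemma dot_tl (f D : Fin 7 → ℤ) : dot (tl f) (tl D) = ∑ c, f c * D c := by
  rw [Fin.sum_univ_seven]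
  show f 0 * D 0 + (f 1 * D 1 + (f 2 * D 2 + (f 3 * D 3 + (f 4 * D 4 + (f 5 * D 5 +
    (f 6 * D 6 + 0)))))) = _
  ring

/-- the row of a linear form -/
def rowOf (s m : Fin 7) : List ℤ := tl (fun c => kap m (c - s))

lemma kz_row (m s : Fin 7) (D : Fin 7 → ℤ) : kz m s D = dot (rowOf s m) (tl D) := by
  unfold rowOf
  rw [dot_tl]
  unfold kz
  rw [← Equiv.sum_comp (Equiv.addRight s) (fun c => kap m (c - s) * D c)]
  refine Finset.sum_congr rfl fun c _ => ?_
  show _ = kap m (c + s - s) * D (c + s)
  rw [add_sub_cancel_right]

/-- vectors with given positive and negative part -/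
def en (chk : List ℤ → Bool) : List Bool → ℕ → ℕ → List ℤ → Bool
  | [], p, q, l => !(p == 0 && q == 0) || chk l
  | true :: ms, p, q, l => en chk ms p q (0 :: l)
  | false :: ms, p, q, l =>
    (List.range (p + 1)).all (fun v => en chk ms (p - v) q (Int.ofNat v :: l)) &&
    (List.range q).all (fun v => en chk ms p (q - (v + 1)) (Int.negSucc v :: l))

/-- the positive part -/
def pos (l : List ℤ) : ℕ := (l.map Int.toNat).sum

/-- the negative part -/
def neg (l : List ℤ) : ℕ := (l.map (fun x => (-x).toNat)).sum

theorem en_spec (chk : List ℤ → Bool) (ms : List Bool) :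
    ∀ (p q : ℕ) (l : List ℤ), en chk ms p q l = true → ∀ v : List ℤ,
      List.Forall₂ (fun (b : Bool) (x : ℤ) => b = true → x = 0) ms v → pos v = p → neg v = q →
      chk (v.reverse ++ l) = true := by
  induction ms with
  | nil =>
    intro p q l h v hv hp hq
    cases hv
    unfold en at h
    have h1 : p = 0 := hp.symm
    have h2 : q = 0 := hq.symm
    rw [h1, h2] at h
    simpa using h
  | cons b ms ih =>
    intro p q l h v hv hp hq
    cases hv with
    | cons hb hv =>
      rename_i x v
      rw [List.reverse_cons, List.append_assoc, List.singleton_append]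
      cases b with
      | true =>
        have hx := hb rfl
        subst hx
        unfold en at h
        refine ih p q _ h v hv ?_ ?_
        · rw [← hp]; simp [pos]
        · rw [← hq]; simp [neg]
      | false =>
        unfold en at h
        rw [Bool.and_eq_true] at h
        obtain ⟨h1, h2⟩ := h
        rw [List.all_eq_true] at h1 h2
        rcases x with m | m
        · have hp' : m + pos v = p := by rw [← hp]; simp [pos]
          have hq' : neg v = q := by rw [← hq]; simp [neg]
          exact ih (p - m) q _ (h1 m (List.mem_range.mpr (by omega))) v hv (by omega) hq'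
        · have hp' : pos v = p := by rw [← hp]; simp [pos]
          have hq' : m + 1 + neg v = q := by
            rw [← hq]
            have : (-(Int.negSucc m)).toNat = m + 1 := by rw [Int.neg_negSucc]; rfl
            simp only [neg, List.map_cons, List.sum_cons, this]
          exact ih p (q - (m + 1)) _ (h2 m (List.mem_range.mpr (by omega))) v hv hp' (by omega)

/-- rotation -/
def rot : List ℤ → List ℤ
  | [] => []
  | a :: l => l ++ [a]

lemma rot_tl (D : Fin 7 → ℤ) : rot (tl D) = tl (fun i => D (i + 1)) := rfl

lemma rot_iter (j : ℕ) : ∀ D : Fin 7 → ℤ,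
    rot^[j] (tl D) = tl (fun i => D (i + j • (1 : Fin 7))) := by
  induction j with
  | zero => intro D; simp
  | succ j ih =>
    intro D
    rw [Function.iterate_succ_apply, rot_tl, ih]
    congr 1
    funext i
    congr 1
    rw [succ_nsmul, add_assoc]

/-- the code of a list -/
def code1 : List ℤ → ℕ
  | a :: l => (a + 8).toNat + 16 * code1 l
  | [] => 0

/-- the code of a pair -/
def code (D D' : List ℤ) : ℕ := code1 (D ++ D')

/-- the divisor of `f` from the divisor of `1 - f` and the zeros of `f` -/
def mkD : List ℤ → List ℤ → List ℤ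
  | a :: as, v :: vs => (if v < 0 then v else a) :: mkD as vs
  | _, _ => []

end Pool.Agent.K7
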