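import Pool.Agent.Lib_helper72.K7S.Tab

/-!
# The curve 26b1: the enumeration, one point
-/

set_option autoImplicit false

namespace Pool.Agent.K7

lemma en1_1 : en (chk1 1) [false, false, false, false, false, false, true] 1 1 [] = true := by
  decide +kernel

lemma en1_2 : en (chk1 2) [false, false, false, false, false, false, true] 2 2 [] = true := by
  decide +kernel

lemma en1_3 : en (chk1 3) [false, false, false, false, false, false, true] 3 3 [] = true := by
  decide +kernel

lemma en1_4 : en (chk1 4) [false, false, false, false, false, false, true] 4 4 [] = true := by
  decide +kernel

lemma en1_5 : en (chk1 5) [false, false, false, false, false, false, true] 5 5 [] = true := by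
  decide +kernel

end Pool.Agent.K7
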