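import Pool.Agent.Lib_helper72.K7S.Tab

/-!
# The curve 26b1: the enumeration, two points, difference 2
-/

set_option autoImplicit false

namespace Pool.Agent.K7

lemma en2_22 : en (chk2 2 2) (msk 2) 2 2 [] = true := by
  decide +kernel

lemma en2_23 : en (chk2 2 3) (msk 2) 3 3 [] = true := by
  decide +kernel

lemma en2_24 : en (chk2 2 4) (msk 2) 4 4 [] = true := by
  decide +kernel

lemma en2_25 : en (chk2 2 5) (msk 2) 5 5 [] = true := by
  decide +kernel

end Pool.Agent.K7
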