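import Pool.Agent.Lib_helper72.K7S.Tab

/-!
# The curve 26b1: the enumeration, two points, difference 3
-/

set_option autoImplicit false

namespace Pool.Agent.K7

lemma en2_32 : en (chk2 3 2) (msk 3) 2 2 [] = true := by
  decide +kernel

lemma en2_33 : en (chk2 3 3) (msk 3) 3 3 [] = true := by
  decide +kernel

lemma en2_34 : en (chk2 3 4) (msk 3) 4 4 [] = true := by
  decide +kernel

lemma en2_35 : en (chk2 3 5) (msk 3) 5 5 [] = true := by
  decide +kernel

end Pool.Agent.K7
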