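import Pool.Agent.Lib_helper72.K7S.V
import Pool.Agent.Lib_helper72.KC.W

/-!
# The curve 26b1: integers
-/

set_option autoImplicit false
set_option linter.unusedSectionVars false
set_option linter.unusedSimpArgs false
set_option linter.unusedVariables false

namespace Pool.Agent.K7

open Polynomial WeierstrassCurve.Affine WithZero TN

/-- the coefficients of `q u'/u` for `t = 2` -/
def rr2 : Fin 6 → Fin 7 → ℤ :=
  ![![-32, 16, 16, 2, -12, -1, 2], ![0, 8, 0, -2, -4, -1, 2], ![0, 16, 0, 0, -8, -1, 2],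
    ![-64, 48, 16, -4, -14, -2, 3], ![-32, 32, 8, -6, -12, 0, 3], ![-32, 48, 8, -6, -14, -1, 3]]

lemma rr2_eq {k : Type*} [Field k] (j : Fin 6) (m : Fin 7) : rr (2 : k) j m = (rr2 j m : k) := by
  fin_cases j <;> fin_cases m
  all_goals (unfold rr rr2; norm_num)

/-- the coefficients in terms of the divisor -/
def kap : Fin 7 → Fin 7 → ℤ :=
  ![![0, 0, 0, 0, 0, 0, -224], ![0, -48, 16, 24, 88, 40, 160], ![0, 56, 0, 0, 0, 0, 56],
    ![0, 36, 16, 10, -10, -30, -22], ![0, -42, -14, -28, -28, -14, -42],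
    ![0, -6, -12, -4, -3, 5, -1], ![0, 7, 7, 7, 7, 7, 7]]

/-- the linear forms -/
def kz (m s : Fin 7) (D : Fin 7 → ℤ) : ℤ := ∑ c, kap m c * D (c + s)

lemma kz_eq (m : Fin 7) (e : Fin 7 → ℤ) :
    7 * ∑ j, NN e j * rr2 j m = ∑ c, kap m c * OO e c := by
  have key : ∀ m i : Fin 7, 7 * ∑ j, ex i j * rr2 j m =
      kap m (i - 1) + kap m (i + 1) - 2 * kap m i := by decide +kernel
  have h1 : 7 * ∑ j, NN e j * rr2 j m = ∑ i, e i * (7 * ∑ j, ex i j * rr2 j m) := by
    unfold NN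
    rw [Finset.mul_sum]
    rw [show (∑ j, 7 * ((∑ i, e i * ex i j) * rr2 j m)) =
      ∑ j, ∑ i, e i * (7 * (ex i j * rr2 j m)) from Finset.sum_congr rfl fun j _ => by
        rw [Finset.sum_mul, Finset.mul_sum]
        exact Finset.sum_congr rfl fun i _ => by ring, Finset.sum_comm]
    refine Finset.sum_congr rfl fun i _ => ?_
    rw [Finset.mul_sum, Finset.mul_sum]
  rw [h1]
  simp only [key]
  have h2 : ∑ c, kap m c * OO e c = ∑ c, kap m c * e (c + 1) + ∑ c, kap m c * e (c - 1) -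
      ∑ c, kap m c * (2 * e c) := by
    unfold OO
    rw [← Finset.sum_add_distrib, ← Finset.sum_sub_distrib]
    exact Finset.sum_congr rfl fun c _ => by ring
  have h3 : ∑ c, kap m c * e (c + 1) = ∑ i, e i * kap m (i - 1) := by
    rw [← Equiv.sum_comp (Equiv.addRight (1 : Fin 7)) (fun i => e i * kap m (i - 1))]
    refine Finset.sum_congr rfl fun c _ => ?_
    show _ = e (c + 1) * kap m (c + 1 - 1)
    rw [add_sub_cancel_right, mul_comm]
  have h4 : ∑ c, kap m c * e (c - 1) = ∑ i, e i * kap m (i + 1) := by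
    rw [← Equiv.sum_comp (Equiv.subRight (1 : Fin 7)) (fun i => e i * kap m (i + 1))]
    refine Finset.sum_congr rfl fun c _ => ?_
    show _ = e (c - 1) * kap m (c - 1 + 1)
    rw [sub_add_cancel, mul_comm]
  rw [h2, h3, h4, ← Finset.sum_add_distrib, ← Finset.sum_sub_distrib]
  exact Finset.sum_congr rfl fun i _ => by ring

/-- `g'/g` vanishes to order `a - 1` at `-sP` -/
def VanAt (D : Fin 7 → ℤ) (s : Fin 7) (a : ℤ) : Prop := ∀ m : Fin 7, 7 - a < ordm m → kz m s D = 0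

lemma lt_ordm : ∀ M m : Fin 7, ordm M < ordm m → M < m := by decide

lemma van2 {k : Type*} [Field k] {F : Type*} [Field F] [Algebra k F] {x y : F} [CharZero k]
    (h : Gen (bb (2 : k)) (cc (2 : k)) x y) {c₀ c₁ : k} (h0 : c₀ ≠ 0) (h1 : c₁ ≠ 0)
    {e e' : Fin 7 → ℤ}
    (hu : algebraMap k F c₀ * mon (2 : k) x y e + algebraMap k F c₁ * mon (2 : k) x y e' = 1) (s : Fin 7)
    (hs : 1 ≤ OO e s) (hs' : OO e' s = 0) :
    (∃ M : Fin 7, ordm M = 7 - OO e s) ∧ VanAt (OO e') s (OO e s) := by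
  obtain ⟨M, hM, hv⟩ := van7 (t := (2 : k)) two_ne_zero (by norm_num) h h0 h1 hu s hs hs'
  refine ⟨⟨M, hM⟩, fun m hm => ?_⟩
  have hlt : M < m := by
    rw [← hM] at hm
    exact lt_ordm M m (by omega)
  have h2 := hv m hlt
  unfold RR at h2
  rw [Finset.sum_apply] at h2
  simp only [Pi.smul_apply, smul_eq_mul, rr2_eq] at h2
  have h3 : ∑ j, (NN fun i => e' (i + s)) j * rr2 j m = 0 := by
    have : ((∑ j, (NN fun i => e' (i + s)) j * rr2 j m : ℤ) : k) = 0 := by
      push_cast; exact h2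
    exact_mod_cast this
  have h4 := kz_eq m (fun i => e' (i + s))
  rw [h3, mul_zero] at h4
  unfold kz
  rw [h4]
  refine Finset.sum_congr rfl fun c _ => ?_
  rw [OO_shift]

end Pool.Agent.K7
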