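import Pool.Agent.Lib_helper72.K7S.En1
import Pool.Agent.Lib_helper72.K7S.En2a
import Pool.Agent.Lib_helper72.K7S.En2b
import Pool.Agent.Lib_helper72.K7S.En2c

/-!
# The curve 26b1: the divisors of the solutions
-/

set_option autoImplicit false
set_option linter.unusedSectionVars false
set_option linter.unusedSimpArgs false
set_option linter.unusedVariables false

namespace Pool.Agent.K7

open KC72 K7S

/-- the conditions on the divisors of `f`, `1 - f` -/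
structure Shp (D D' : Fin 7 → ℤ) : Prop where
  alt : ∀ s, (D s = 0 ∧ D' s = 0) ∨ (1 ≤ D s ∧ D' s = 0) ∨ (D s = 0 ∧ 1 ≤ D' s) ∨
    (D s = D' s ∧ D s ≤ -1)
  s0 : ∑ s, D s = 0
  s1 : ∑ s, D' s = 0
  w0 : (∑ s : Fin 7, (s.val : ℤ) * D s) % 7 = 0
  w1 : (∑ s : Fin 7, (s.val : ℤ) * D' s) % 7 = 0
  van : ∀ s, 1 ≤ D s → (∃ M : Fin 7, ordm M = 7 - D s) ∧ VanAt D' s (D s)
  lv : ∀ s s', 1 ≤ D s → 1 ≤ D s' → ∑ c, nu (c - s) * D' c = ∑ c, nu (c - s') * D' c
  ne : ∃ s, D' s ≠ 0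

lemma ord_take : ∀ a : Fin 8, ∀ m ∈ ([5, 4, 3, 2, 1] : List (Fin 7)).take (a.val - 1),
    (7 : ℤ) - (a.val : ℤ) < ordm m := by decide

lemma van_rows {D' : Fin 7 → ℤ} {d : Fin 4} {a : ℕ} (ha : a ≤ 7) (h : VanAt D' (r7 d) a) :
    ∀ r ∈ (Rw d).take (a - 1), dot r (tl D') = 0 := by
  intro r hr
  rw [Rw_eq, ← List.map_take, List.mem_map] at hr
  obtain ⟨m, hm, rfl⟩ := hr
  rw [← kz_row]
  exact h m (ord_take ⟨a, by omega⟩ m hm)

lemma vanc_of {D' : Fin 7 → ℤ} {d : Fin 4} {a : ℕ} (ha : a ≤ 7) (h : VanAt D' (r7 d) a) (j : ℕ)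
    (hj : j ≤ a - 1) : vanc (Rw d) j (tl D') = true := by
  unfold vanc
  rw [List.all_eq_true]
  intro r hr
  rw [beq_iff_eq]
  exact van_rows ha h r (List.take_subset_take_left _ hj hr)

lemma wtc_of {D : Fin 7 → ℤ} (h : (∑ s : Fin 7, (s.val : ℤ) * D s) % 7 = 0) :
    wtc (tl D) = true := by
  rw [← dot_tl (fun s : Fin 7 => (s.val : ℤ)) D] at h
  unfold wtc
  rw [beq_iff_eq]
  exact h

lemma two_or : ∀ d : Fin 4, d = 0 ∨ d = 1 ∨ d = 2 ∨ d = 3 := by decide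

/-- the positive and negative parts of the divisor of `1 - f` -/
lemma parts {D D' : Fin 7 → ℤ} (H : Shp D D') (d : Fin 4)
    (hA : ∀ s, 1 ≤ D s → s = 0 ∨ s = r7 d) {n : ℕ}
    (hn : (n : ℤ) = ∑ s, (if 1 ≤ D s then D s else 0)) :
    pos (tl D').reverse = n ∧ neg (tl D').reverse = n := by
  have key : ∀ s, ((D' s).toNat : ℤ) = D' s - D s + (if 1 ≤ D s then D s else 0) ∧
      ((-(D' s)).toNat : ℤ) = - D s + (if 1 ≤ D s then D s else 0) := by
    intro s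
    rcases H.alt s with ⟨h1, h2⟩ | ⟨h1, h2⟩ | ⟨h1, h2⟩ | ⟨h1, h2⟩
    · rw [h1, h2]; simp
    · rw [if_pos h1, h2]; simp
    · rw [h1, if_neg (by norm_num)]; omega
    · rw [if_neg (by omega)]; omega
  have e0 := H.s0
  have e1 := H.s1
  rw [Fin.sum_univ_seven] at e0 e1 hn
  have k0 := key 0
  have k1 := key 1
  have k2 := key 2
  have k3 := key 3
  have k4 := key 4
  have k5 := key 5
  have k6 := key 6
  have p1 : pos (tl D').reverse = (D' 6).toNat + ((D' 5).toNat + ((D' 4).toNat +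
      ((D' 3).toNat + ((D' 2).toNat + ((D' 1).toNat + ((D' 0).toNat + 0)))))) := rfl
  have p2 : neg (tl D').reverse = (-(D' 6)).toNat + ((-(D' 5)).toNat + ((-(D' 4)).toNat +
      ((-(D' 3)).toNat + ((-(D' 2)).toNat + ((-(D' 1)).toNat + ((-(D' 0)).toNat + 0)))))) := rfl
  rw [p1, p2]
  constructor <;> zify <;> linarith [k0.1, k0.2, k1.1, k1.2, k2.1, k2.2, k3.1, k3.2, k4.1, k4.2,
    k5.1, k5.2, k6.1, k6.2]

lemma mkD_tl (f D D' : Fin 7 → ℤ) (h : ∀ s, (if D' s < 0 then D' s else f s) = D s) :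
    mkD (tl f) (tl D') = tl D := by
  show [if D' 0 < 0 then D' 0 else f 0, if D' 1 < 0 then D' 1 else f 1,
    if D' 2 < 0 then D' 2 else f 2, if D' 3 < 0 then D' 3 else f 3,
    if D' 4 < 0 then D' 4 else f 4, if D' 5 < 0 then D' 5 else f 5,
    if D' 6 < 0 then D' 6 else f 6] = _
  simp only [h]
  rfl

/-- no solution of high degree at one point -/
lemma zero1 {D' : Fin 7 → ℤ} (h0 : D' 0 = 0) (hs : ∑ s, D' s = 0)
    (h : ∀ r ∈ Rw 0, dot r (tl D') = 0) : ∀ s, D' s = 0 := by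
  rw [Fin.sum_univ_seven] at hs
  simp only [Rw, tl, dot, Matrix.cons_val_zero, List.mem_cons, List.not_mem_nil, or_false,
    forall_eq_or_imp, forall_eq] at h
  obtain ⟨a1, a2, a3, a4, a5⟩ := h
  intro s
  fin_cases s <;> simp only [Fin.zero_eta, Fin.mk_one, Fin.reduceFinMk] <;> omega

/-- no solution of high degree at two points -/
lemma zero2 {D' : Fin 7 → ℤ} (d : Fin 4) (hd : d ≠ 0) (i : Fin 5) (h0 : D' 0 = 0)
    (h1 : D' (r7 d) = 0) (hs : ∑ s, D' s = 0)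
    (h : ∀ r ∈ (Rw 0).take i, dot r (tl D') = 0)
    (h' : ∀ r ∈ (Rw d).take (4 - i), dot r (tl D') = 0) : ∀ s, D' s = 0 := by
  rw [Fin.sum_univ_seven] at hs
  have r1 : r7 1 = 1 := rfl
  have r2 : r7 2 = 2 := rfl
  have r3 : r7 3 = 3 := rfl
  obtain rfl | rfl | rfl | rfl := two_or d
  · exact absurd rfl hd
  all_goals
    first | rw [r1] at h1 | rw [r2] at h1 | rw [r3] at h1
    intro s
    fin_cases i <;>
    simp only [Fin.zero_eta, Fin.mk_one, Fin.reduceFinMk, Fin.val_zero, Fin.val_one, Nat.sub_zero,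
      Fin.isValue, Nat.reduceSub, Fin.coe_ofNat_eq_mod, Nat.reduceMod, Rw, tl, dot,
      Matrix.cons_val, Matrix.cons_val_zero, Matrix.cons_val_one, List.take, List.mem_cons,
      List.not_mem_nil, or_false, forall_eq_or_imp, forall_eq] at h h' <;>
    fin_cases s <;> simp only [Fin.zero_eta, Fin.mk_one, Fin.reduceFinMk] <;> omega

end Pool.Agent.K7
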