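import Pool.Agent.Lib_helper72.K7S.T3

/-!
# The curve 26b1: the smallest fibre at the origin
-/

set_option autoImplicit false
set_option linter.unusedSectionVars false
set_option linter.unusedSimpArgs false
set_option linter.unusedVariables false

namespace Pool.Agent.K7

open KC72 K7S

lemma ordm_le : ∀ M : Fin 7, (0 : ℤ) ≤ ordm M ∧ ordm M ≠ 1 := by decide

lemma r7_zero : r7 0 = 0 := rfl

lemma r7_ne : ∀ d : Fin 4, d ≠ 0 → r7 d ≠ 0 := by decide

theorem comb1 {D D' : Fin 7 → ℤ} (H : Shp D D') (h0 : 1 ≤ D 0) (hA : ∀ s, 1 ≤ D s → s = 0) :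
    lk 7 (tl D) (tl D') = true := by
  have z0 : D' 0 = 0 := by rcases H.alt 0 with h | h | h | h <;> omega
  obtain ⟨⟨M, hM⟩, hv⟩ := H.van 0 h0
  obtain ⟨n, hn⟩ : ∃ n : ℕ, D 0 = n := ⟨(D 0).toNat, by omega⟩
  rw [hn] at hM hv
  have hM' := ordm_le M
  have n7 : n ≤ 7 := by omega
  have n6 : n ≠ 6 := by omega
  have n1 : 1 ≤ n := by omega
  have hf : ∀ s, (if 1 ≤ D s then D s else 0) = (if s = 0 then (n : ℤ) else 0) := by
    intro s
    by_cases hs : s = 0
    · rw [hs, if_pos rfl, if_pos h0, hn]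
    · rw [if_neg (fun h => hs (hA s h)), if_neg hs]
  by_cases h7 : n = 7
  · exfalso
    obtain ⟨s, hs⟩ := H.ne
    apply hs
    refine zero1 z0 H.s1 ?_ s
    subst h7
    exact van_rows (d := 0) (a := 7) le_rfl hv
  have E : en (chk1 n) [false, false, false, false, false, false, true] n n [] = true := by
    have : n ≤ 5 := by omega
    interval_cases n
    · exact en1_1
    · exact en1_2
    · exact en1_3
    · exact en1_4
    · exact en1_5
  obtain ⟨p1, p2⟩ := parts H 0 (n := n) (fun s h => Or.inl (hA s h)) (by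
    simp only [hf]; simp)
  have key := en_spec _ _ _ _ _ E (tl D').reverse (by
    simp [tl, z0]) p1 p2
  rw [List.reverse_reverse, List.append_nil] at key
  unfold chk1 at key
  rw [wtc_of H.w1, vanc_of (d := 0) n7 hv _ le_rfl] at key
  simp only [Bool.not_true, Bool.false_or] at key
  have hm := mkD_tl (fun s => if s = 0 then (n : ℤ) else 0) D D' (by
    intro s
    rw [← hf]
    rcases H.alt s with ⟨h1, h2⟩ | ⟨h1, h2⟩ | ⟨h1, h2⟩ | ⟨h1, h2⟩
    · rw [if_neg (by omega), if_neg (by omega), h1]
    · rw [if_neg (by omega), if_pos h1]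
    · rw [if_neg (by omega), if_neg (by omega), h1]
    · rw [if_pos (by omega), h1])
  rw [← hm]
  exact key

theorem comb2 {D D' : Fin 7 → ℤ} (H : Shp D D') (d : Fin 4) (hd : d ≠ 0) (h0 : 1 ≤ D 0)
    (h1 : 1 ≤ D (r7 d)) (hA : ∀ s, 1 ≤ D s → s = 0 ∨ s = r7 d) :
    lk 7 (tl D) (tl D') = true := by
  have z0 : D' 0 = 0 := by rcases H.alt 0 with h | h | h | h <;> omega
  have z1 : D' (r7 d) = 0 := by rcases H.alt (r7 d) with h | h | h | h <;> omega
  obtain ⟨⟨M, hM⟩, hv⟩ := H.van 0 h0
  obtain ⟨⟨M', hM1⟩, hv1⟩ := H.van (r7 d) h1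
  obtain ⟨a, ha⟩ : ∃ n : ℕ, D 0 = n := ⟨(D 0).toNat, by omega⟩
  obtain ⟨b, hb⟩ : ∃ n : ℕ, D (r7 d) = n := ⟨(D (r7 d)).toNat, by omega⟩
  rw [ha] at hM hv h0
  rw [hb] at hM1 hv1 h1
  have q1 := ordm_le M
  have q2 := ordm_le M'
  have a7 : a ≤ 7 := by omega
  have b7 : b ≤ 7 := by omega
  have a1 : 1 ≤ a := by omega
  have b1 : 1 ≤ b := by omega
  have r0 := r7_ne d hd
  have hf : ∀ s, (if 1 ≤ D s then D s else 0) =
      (if s = 0 then (a : ℤ) else 0) + (if s = r7 d then (b : ℤ) else 0) := by
    intro s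
    by_cases hs : s = 0
    · rw [hs, if_pos rfl, if_neg (Ne.symm r0), if_pos (by omega), ha, add_zero]
    · by_cases hs' : s = r7 d
      · rw [hs', if_neg r0, if_pos rfl, if_pos (by omega), hb, zero_add]
      · rw [if_neg (fun h => (hA s h).elim hs hs'), if_neg hs, if_neg hs', add_zero]
  by_cases h6 : 6 ≤ a + b
  · exfalso
    obtain ⟨s, hs⟩ := H.ne
    apply hs
    by_cases a5 : a ≤ 5
    · refine zero2 d hd ⟨a - 1, by omega⟩ z0 z1 H.s1 (van_rows (d := 0) a7 hv) ?_ s
      intro r hr
      exact van_rows b7 hv1 r (List.take_subset_take_left _ (by show 4 - (a - 1) ≤ b - 1; omega) hr)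
    · refine zero2 d hd ⟨4, by omega⟩ z0 z1 H.s1 ?_ ?_ s
      · intro r hr
        exact van_rows (d := 0) a7 hv r (List.take_subset_take_left _ (by show 4 ≤ a - 1; omega) hr)
      · intro r hr
        exact absurd hr (by simp)
  have E : en (chk2 d (a + b)) (msk d) (a + b) (a + b) [] = true := by
    have h2 : 2 ≤ a + b := by omega
    have h5 : a + b ≤ 5 := by omega
    generalize a + b = n at h2 h5
    rcases two_or d with h | h | h | h
    · exact absurd h hd
    · subst h
      interval_cases n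
      · exact en2_12
      · exact en2_13
      · exact en2_14
      · exact en2_15
    · subst h
      interval_cases n
      · exact en2_22
      · exact en2_23
      · exact en2_24
      · exact en2_25
    · subst h
      interval_cases n
      · exact en2_32
      · exact en2_33
      · exact en2_34
      · exact en2_35
  obtain ⟨p1, p2⟩ := parts H d (n := a + b) hA (by
    simp only [hf, Finset.sum_add_distrib]; simp)
  have key := en_spec _ _ _ _ _ E (tl D').reverse (by
    rcases two_or d with h | h | h | h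
    · exact absurd h hd
    · subst h
      have z1' : D' 1 = 0 := z1
      simp [tl, z0, z1', msk, r7]
    · subst h
      have z1' : D' 2 = 0 := z1
      simp [tl, z0, z1', msk, r7]
    · subst h
      have z1' : D' 3 = 0 := z1
      simp [tl, z0, z1', msk, r7]) p1 p2
  rw [List.reverse_reverse, List.append_nil] at key
  have hL : dot (La d) (tl D') = 0 := by
    rw [La_eq, dot_tl]
    have h2 := H.lv 0 (r7 d) (by omega) (by omega)
    simp only [sub_zero] at h2
    simp only [sub_mul, Finset.sum_sub_distrib, h2, sub_self]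
  have hm := mkD_tl (fun s => if s = 0 then (a : ℤ) else if s = r7 d then (b : ℤ) else 0) D D' (by
    intro s
    have hf' : (if s = 0 then (a : ℤ) else if s = r7 d then (b : ℤ) else 0) =
        (if s = 0 then (a : ℤ) else 0) + (if s = r7 d then (b : ℤ) else 0) := by
      by_cases hs : s = 0
      · rw [hs, if_pos rfl, if_pos rfl, if_neg (Ne.symm r0), add_zero]
      · rw [if_neg hs, if_neg hs, zero_add]
    show (if D' s < 0 then D' s else
      if s = 0 then (a : ℤ) else if s = r7 d then (b : ℤ) else 0) = D s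
    rw [hf', ← hf]
    rcases H.alt s with ⟨h1, h2⟩ | ⟨h1, h2⟩ | ⟨h1, h2⟩ | ⟨h1, h2⟩
    · rw [if_neg (by omega), if_neg (by omega), h1]
    · rw [if_neg (by omega), if_pos h1]
    · rw [if_neg (by omega), if_neg (by omega), h1]
    · rw [if_pos (by omega), h1])
  unfold chk2 at key
  rw [wtc_of H.w1, hL] at key
  simp only [Bool.not_true, Bool.false_or, beq_self_eq_true, List.all_eq_true, List.mem_range]
    at key
  have k2 := key (a - 1) (by omega)
  rw [vanc_of (d := 0) a7 hv _ le_rfl, vanc_of b7 hv1 _ (by omega)] at k2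
  have c1 : ((a - 1 : ℕ) : ℤ) + 1 = a := by omega
  have c2 : ((a + b - 1 - (a - 1) : ℕ) : ℤ) = b := by omega
  rw [c1, c2] at k2
  have c3 : mkD (aL d a b) (tl D') = tl D := hm
  rw [c3, wtc_of H.w0] at k2
  simpa using k2

end Pool.Agent.K7
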