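import Pool.Agent.Lib_helper72.K7S.T4

/-!
# The curve 26b1: the divisors of a solution are in the table
-/

set_option autoImplicit false
set_option linter.unusedSectionVars false
set_option linter.unusedSimpArgs false
set_option linter.unusedVariables false

namespace Pool.Agent.K7

open Polynomial WeierstrassCurve.Affine WithZero TN
open KC72 K7S

lemma nu_L0 (e : Fin 7 → ℤ) :
    7 * (2 * S1 e 0 + S2 e 0) = ∑ c, nu c * OO e c + 10 * ∑ i, e i := by
  rw [Fin.sum_univ_seven, Fin.sum_univ_seven]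
  unfold S1 S2 OO
  have a0 : (0 : Fin 7) + 1 = 1 ∧ (0 : Fin 7) - 1 = 6 := by decide
  have a1 : (1 : Fin 7) + 1 = 2 ∧ (1 : Fin 7) - 1 = 0 := by decide
  have a2 : (2 : Fin 7) + 1 = 3 ∧ (2 : Fin 7) - 1 = 1 := by decide
  have a3 : (3 : Fin 7) + 1 = 4 ∧ (3 : Fin 7) - 1 = 2 := by decide
  have a4 : (4 : Fin 7) + 1 = 5 ∧ (4 : Fin 7) - 1 = 3 := by decide
  have a5 : (5 : Fin 7) + 1 = 6 ∧ (5 : Fin 7) - 1 = 4 := by decide
  have a6 : (6 : Fin 7) + 1 = 0 ∧ (6 : Fin 7) - 1 = 5 := by decide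
  rw [a0.1, a0.2, a1.1, a1.2, a2.1, a2.2, a3.1, a3.2, a4.1, a4.2, a5.1, a5.2, a6.1, a6.2]
  simp only [add_zero]
  have n0 : nu 0 = 0 := rfl
  have n1 : nu 1 = -5 := rfl
  have n2 : nu 2 = -6 := rfl
  have n3 : nu 3 = -3 := rfl
  have n4 : nu 4 = -3 := rfl
  have n5 : nu 5 = -6 := rfl
  have n6 : nu 6 = -5 := rfl
  rw [n0, n1, n2, n3, n4, n5, n6]
  ring

lemma nu_L (e : Fin 7 → ℤ) (s : Fin 7) :
    7 * (2 * S1 e s + S2 e s) = ∑ c, nu (c - s) * OO e c + 10 * ∑ i, e i := by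
  have h := nu_L0 (fun i => e (i + s))
  rw [S1_shift, S2_shift, zero_add] at h
  rw [h]
  congr 1
  · rw [← Equiv.sum_comp (Equiv.addRight s) (fun c => nu (c - s) * OO e c)]
    refine Finset.sum_congr rfl fun c _ => ?_
    show nu c * OO (fun i => e (i + s)) c = nu (c + s - s) * OO e (c + s)
    rw [add_sub_cancel_right, OO_shift]
  · congr 1
    exact Equiv.sum_comp (Equiv.addRight s) e

section

variable {k : Type*} [Field k] {F : Type*} [Field F] [Algebra k F] {x y : F}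

lemma two_inj [CharZero k] {a b : ℤ} (h : (2 : k) ^ a = 2 ^ b) : a = b := by
  have h2 : ((((2 : ℚ) ^ a : ℚ)) : k) = (((2 : ℚ) ^ b : ℚ) : k) := by
    push_cast
    exact h
  have h3 : (2 : ℚ) ^ a = 2 ^ b := by exact_mod_cast h2
  exact zpow_right_injective₀ (by norm_num) (by norm_num) h3

lemma Lc_eq [CharZero k] {c : k} {e : Fin 7 → ℤ} {s s' : Fin 7} (h : Lc 2 c e s = 1)
    (h' : Lc 2 c e s' = 1) : 2 * S1 e s + S2 e s = 2 * S1 e s' + S2 e s' := by
  have hc : c ≠ 0 := by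
    rintro rfl
    unfold Lc at h
    rw [zero_mul] at h
    exact zero_ne_one h
  have h2 : (∏ i, lam (2 : k) i ^ e (i + s)) = ∏ i, lam (2 : k) i ^ e (i + s') :=
    mul_left_cancel₀ hc (h.trans h'.symm)
  have h3 : (∏ i, lam (2 : k) i ^ e (i + s)) ^ 2 = (∏ i, lam (2 : k) i ^ e (i + s')) ^ 2 := by
    rw [h2]
  rw [prod_lam two_ne_zero (by norm_num), prod_lam two_ne_zero (by norm_num)] at h3
  have e1 : (2 : k) - 1 = 1 := by norm_num
  rw [e1, one_zpow, one_zpow, mul_one, mul_one] at h3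
  have := two_inj h3
  omega

lemma shp [CharZero k] (h : Gen (bb (2 : k)) (cc (2 : k)) x y) {c₀ c₁ : k} (h0 : c₀ ≠ 0)
    (h1 : c₁ ≠ 0) {e e' : Fin 7 → ℤ}
    (hu : algebraMap k F c₀ * mon (2 : k) x y e + algebraMap k F c₁ * mon (2 : k) x y e' = 1)
    (he' : ∃ s, OO e' s ≠ 0) : Shp (OO e) (OO e') := by
  have B := bound7 (t := (2 : k)) two_ne_zero (by norm_num) h h0 h1 hu
  have L : ∀ s, 1 ≤ OO e s → Lc 2 c₁ e' s = 1 := by
    intro s hs
    rcases B s with h | ⟨_, _, h, _⟩ | h | h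
    · omega
    · exact h
    · omega
    · omega
  refine ⟨?_, sum_OO e, sum_OO e', ?_, ?_, ?_, ?_, he'⟩
  · intro s
    rcases B s with h | ⟨h, h', _⟩ | ⟨h, h', _⟩ | ⟨h, h', _⟩
    · exact Or.inl h
    · exact Or.inr (Or.inl ⟨h, h'⟩)
    · exact Or.inr (Or.inr (Or.inl ⟨h, h'⟩))
    · exact Or.inr (Or.inr (Or.inr ⟨h, h'⟩))
  · rw [wt_OO]; omega
  · rw [wt_OO]; omega
  · intro s hs
    have hs' : OO e' s = 0 := by
      rcases B s with h | ⟨h, h', _⟩ | ⟨h, h', _⟩ | ⟨h, h', _⟩ <;> omega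
    exact van2 h h0 h1 hu s hs hs'
  · intro s s' hs hs'
    have h2 := Lc_eq (L s hs) (L s' hs')
    have h3 := nu_L e' s
    have h4 := nu_L e' s'
    linarith

lemma small : ∀ a b : Fin 7, ∃ d : Fin 4, b = a + r7 d ∨ a = b + r7 d := by decide

lemma val_smul : ∀ s : Fin 7, s.val • (1 : Fin 7) = s := by decide

lemma t2_at [CharZero k] (h : Gen (bb (2 : k)) (cc (2 : k)) x y) {c₀ c₁ : k} (h0 : c₀ ≠ 0)
    (h1 : c₁ ≠ 0) {e e' : Fin 7 → ℤ}
    (hu : algebraMap k F c₀ * mon (2 : k) x y e + algebraMap k F c₁ * mon (2 : k) x y e' = 1)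
    (he' : ∃ s, OO e' s ≠ 0) (σ : Fin 7) (d : Fin 4) (hσ : 1 ≤ OO e σ)
    (hd : 1 ≤ OO e (σ + r7 d)) (hA : ∀ s, 1 ≤ OO e s → s = σ ∨ s = σ + r7 d) :
    look (tl (OO e)) (tl (OO e')) = true := by
  obtain ⟨x', y', h', hs⟩ := exists_shift (t := (2 : k)) two_ne_zero (by norm_num) h σ
  rw [mon_shift σ hs e, mon_shift σ hs e'] at hu
  have H := shp h' h0 h1 hu (by
    obtain ⟨s, hs⟩ := he'
    refine ⟨s - σ, ?_⟩
    rw [OO_shift, sub_add_cancel]
    exact hs)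
  have k0 : 1 ≤ OO (fun i => e (i + σ)) 0 := by rw [OO_shift, zero_add]; exact hσ
  have k1 : 1 ≤ OO (fun i => e (i + σ)) (r7 d) := by rw [OO_shift, add_comm]; exact hd
  have kA : ∀ s, 1 ≤ OO (fun i => e (i + σ)) s → s = 0 ∨ s = r7 d := by
    intro s hs
    rw [OO_shift] at hs
    rcases hA _ hs with h2 | h2
    · left; simpa using h2
    · right
      rw [add_comm σ] at h2
      exact add_right_cancel h2
  have key : lk 7 (tl (OO fun i => e (i + σ))) (tl (OO fun i => e' (i + σ))) = true := by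
    by_cases hd0 : d = 0
    · subst hd0
      exact comb1 H k0 fun s hs => (kA s hs).elim id id
    · exact comb2 H d hd0 k0 k1 kA
  have k2 := lk_spec 7 key (-σ).val (-σ).isLt
  rw [rot_iter, rot_iter, val_smul] at k2
  have k3 : ∀ e : Fin 7 → ℤ, (fun i => OO (fun i => e (i + σ)) (i + -σ)) = OO e := by
    intro e
    funext i
    rw [OO_shift, neg_add_cancel_right]
  rw [k3, k3] at k2
  exact k2

/-- **the divisors are in the table** if `f` has at most two zeros -/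
theorem t2_look [CharZero k] (h : Gen (bb (2 : k)) (cc (2 : k)) x y) {c₀ c₁ : k} (h0 : c₀ ≠ 0)
    (h1 : c₁ ≠ 0) {e e' : Fin 7 → ℤ}
    (hu : algebraMap k F c₀ * mon (2 : k) x y e + algebraMap k F c₁ * mon (2 : k) x y e' = 1)
    (he' : ∃ s, OO e' s ≠ 0) {a b : Fin 7} (ha : 1 ≤ OO e a) (hb : 1 ≤ OO e b)
    (hA : ∀ s, 1 ≤ OO e s → s = a ∨ s = b) : look (tl (OO e)) (tl (OO e')) = true := by
  obtain ⟨d, hd | hd⟩ := small a b
  · subst hd
    exact t2_at h h0 h1 hu he' a d ha hb hA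
  · subst hd
    exact t2_at h h0 h1 hu he' b d hb ha fun s hs => (hA s hs).symm

end

end Pool.Agent.K7
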