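import Pool.Agent.Lib_helper72.K7S.T6

/-!
# The curve 26b1: the unit equation, closed elements
-/

set_option autoImplicit false
set_option linter.unusedSectionVars false
set_option linter.unusedSimpArgs false
set_option linter.unusedVariables false

open scoped TensorProduct

namespace Pool.Agent.K7

open Polynomial WeierstrassCurve.Affine WithZero TN MK4
open KC72 K7S

section

variable {k : Type*} [Field k] {F : Type*} [Field F] [Algebra k F] {x y : F}

variable (k x y) in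
/-- the generators -/
def G2 : Fin 7 → F := ![x, x - algebraMap k F (bb 2), x - algebraMap k F (cc 2), y,
  y - algebraMap k F (cc 2) * x, y - algebraMap k F (2 - 1) * x, algebraMap k F 2]

lemma G2_ne [CharZero k] (h : Gen (bb (2 : k)) (cc (2 : k)) x y) (i : Fin 7) :
    G2 k x y i ≠ 0 := by
  have h0 : algebraMap k F 2 ≠ 0 := (_root_.map_ne_zero _).mpr two_ne_zero
  fin_cases i
  · exact uF_ne h 0
  · exact uF_ne h 1
  · exact uF_ne h 2
  · exact uF_ne h 3
  · exact uF_ne h 4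
  · exact uF_ne h 5
  · exact h0

lemma G2l_ne [CharZero k] (h : Gen (bb (2 : k)) (cc (2 : k)) x y) :
    ∀ z ∈ List.ofFn (G2 k x y), z ≠ 0 := by
  intro z hz
  rw [List.mem_ofFn] at hz
  obtain ⟨i, rfl⟩ := hz
  exact G2_ne h i

lemma ev_G2 (s : Bool) (l : List ℤ) : KC72.ev (List.ofFn (G2 k x y)) (s, l) =
    algebraMap k F ((bif s then -1 else 1) * 2 ^ (l.getD 6 0)) *
      M7 (2 : k) x y (fun j => l.getD j.val 0) := by
  unfold KC72.ev M7
  rw [evl_ofFn, Fin.prod_univ_seven, Fin.prod_univ_six, map_mul, map_zpow₀]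
  have hs : algebraMap k F (bif s then -1 else 1) = bif s then -1 else 1 := by
    cases s <;> simp
  rw [hs]
  show (bif s then -1 else 1) * (x ^ l.getD 0 0 * (x - algebraMap k F (bb 2)) ^ l.getD 1 0 *
    (x - algebraMap k F (cc 2)) ^ l.getD 2 0 * y ^ l.getD 3 0 *
    (y - algebraMap k F (cc 2) * x) ^ l.getD 4 0 * (y - algebraMap k F (2 - 1) * x) ^ l.getD 5 0 *
    algebraMap k F 2 ^ l.getD 6 0) = (bif s then -1 else 1) * algebraMap k F 2 ^ l.getD 6 0 *
    (x ^ l.getD 0 0 * (x - algebraMap k F (bb 2)) ^ l.getD 1 0 *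
    (x - algebraMap k F (cc 2)) ^ l.getD 2 0 * y ^ l.getD 3 0 *
    (y - algebraMap k F (cc 2) * x) ^ l.getD 4 0 * (y - algebraMap k F (2 - 1) * x) ^ l.getD 5 0)
  ring

lemma M7_ne (t : k) (h : Gen (bb t) (cc t) x y) (n : Fin 6 → ℤ) : M7 t x y n ≠ 0 :=
  Finset.prod_ne_zero_iff.mpr fun j _ => zpow_ne_zero _ (uF_ne h j)

lemma M7_sub (t : k) (h : Gen (bb t) (cc t) x y) (n n' : Fin 6 → ℤ) :
    M7 t x y (n - n') = M7 t x y n / M7 t x y n' := by
  unfold M7
  rw [← Finset.prod_div_distrib]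
  exact Finset.prod_congr rfl fun j _ => by rw [Pi.sub_apply, zpow_sub₀ (uF_ne h j)]

/-- the coefficients are determined by the exponents -/
lemma M7_uniq [CharZero k] {t : k} (ht : t ≠ 0) (ht1 : t ≠ 1) (h : Gen (bb t) (cc t) x y)
    {n n' : Fin 6 → ℤ} (hn : n ≠ 0) {a a' b b' : k}
    (h1 : algebraMap k F a * M7 t x y n + algebraMap k F a' * M7 t x y n' = 1)
    (h2 : algebraMap k F b * M7 t x y n + algebraMap k F b' * M7 t x y n' = 1) : a = b := by
  have m1 := M7_ne t h n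
  have m2 := M7_ne t h n'
  by_contra hab
  have hab' : a - b ≠ 0 := sub_ne_zero.mpr hab
  have hk : algebraMap k F (a - b) ≠ 0 := (_root_.map_ne_zero _).mpr hab'
  have e1 : algebraMap k F (a - b) * M7 t x y n = algebraMap k F (b' - a') * M7 t x y n' := by
    rw [map_sub, map_sub]
    linear_combination h1 - h2
  have e2 : M7 t x y (n - n') = algebraMap k F ((b' - a') / (a - b)) := by
    rw [M7_sub t h, map_div₀, div_eq_div_iff m2 hk, mul_comm, e1]
  have e3 := M7_const ht ht1 h e2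
  have e4 : n = n' := sub_eq_zero.mp e3
  subst e4
  rw [← add_mul, ← map_add] at h1
  have e5 : a + a' ≠ 0 := by
    intro h'
    rw [h', map_zero, zero_mul] at h1
    exact zero_ne_one h1
  apply hn
  apply M7_const ht ht1 h (s := (a + a')⁻¹)
  rw [map_inv₀]
  exact eq_inv_of_mul_eq_one_right h1

lemma mon_M7 (h : Gen (bb (2 : k)) (cc (2 : k)) x y) (e : Fin 7 → ℤ) :
    mon (2 : k) x y e = algebraMap k F (∏ i, lam 2 i ^ e i) * M7 (2 : k) x y (NN e) := by
  rw [mon_eq h, io_mo]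
  rfl

lemma NN_of {e : Fin 7 → ℤ} {l : List ℤ} (h : divl l = tl (OO e)) :
    (fun j : Fin 6 => l.getD j.val 0) = NN e := by
  rw [divl_eq] at h
  apply Dn_inj
  intro i
  have h2 := tl_inj h (-i)
  simp only [neg_neg] at h2
  rw [h2, Dn_NN]

/-- **identification** -/
theorem t2_id [CharZero k] (h : Gen (bb (2 : k)) (cc (2 : k)) x y)
    (HS : Sols (List.ofFn (G2 k x y)) c26_cls) {c₀ c₁ : k} {e e' : Fin 7 → ℤ}
    (hu : algebraMap k F c₀ * mon (2 : k) x y e + algebraMap k F c₁ * mon (2 : k) x y e' = 1)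
    (he : ∃ s, OO e s ≠ 0) (hl : look (tl (OO e)) (tl (OO e')) = true) :
    ∃ p ∈ c26_cls, Orb (KC72.ev (List.ofFn (G2 k x y)) p.1)
      (algebraMap k F c₀ * mon (2 : k) x y e) := by
  obtain ⟨p, hp, hp', q1, q2⟩ := look_spec hl
  have hg := G2l_ne h
  have r1 := NN_of q1
  have r2 := NN_of q2
  have v1 : KC72.ev (List.ofFn (G2 k x y)) (oo c26_cls p) = algebraMap k F
      ((bif (oo c26_cls p).1 then -1 else 1) * 2 ^ ((oo c26_cls p).2.getD 6 0)) *
      M7 (2 : k) x y (NN e) := by rw [← r1]; exact ev_G2 _ _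
  have v2 : KC72.ev (List.ofFn (G2 k x y)) (co c26_cls p) = algebraMap k F
      ((bif (co c26_cls p).1 then -1 else 1) * 2 ^ ((co c26_cls p).2.getD 6 0)) *
      M7 (2 : k) x y (NN e') := by rw [← r2]; exact ev_G2 _ _
  have v3 := oo_co hg HS hp
  rw [v1, v2] at v3
  rw [mon_M7 h, mon_M7 h, ← mul_assoc, ← mul_assoc, ← map_mul, ← map_mul] at hu
  have hn : NN e ≠ 0 := by
    intro h'
    obtain ⟨s, hs⟩ := he
    apply hs
    have := Dn_NN e (-s)
    rw [neg_neg] at this
    rw [← this, h']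
    simp [Dn]
  have v4 := M7_uniq two_ne_zero (by norm_num) h hn v3 hu
  refine ⟨c26_cls.getD p.1 default, ?_, ?_⟩
  · rw [List.getD_eq_getElem _ _ hp]
    exact List.getElem_mem hp
  · have v5 := orb6_orb hg (HS.getD hp) p.2
    have v6 : algebraMap k F c₀ * mon (2 : k) x y e =
        KC72.ev (List.ofFn (G2 k x y)) (oo c26_cls p) := by
      rw [v1, v4, mon_M7 h, ← mul_assoc, ← map_mul]
    rw [v6]
    exact v5

end

end Pool.Agent.K7
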