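import Pool.Agent.Lib_helper72.K7.H

/-!
# A point of order seven: zeros of higher order
-/

set_option autoImplicit false
set_option linter.unusedSectionVars false
set_option linter.unusedSimpArgs false
set_option linter.unusedVariables false

namespace Pool.Agent.K7

open Polynomial WeierstrassCurve.Affine WithZero TN

/-- the orders of the basis `1, x, y, x², xy, x³, x²y` -/
def ordm : Fin 7 → ℤ := ![0, 2, 3, 4, 5, 6, 7]

section

variable {k : Type*} [Field k] {W : WeierstrassCurve.Affine k}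

/-- the leading term of an element of the space -/
lemma v_NV' (r : Fin 7 → k) : r = 0 ∨ ∃ M : Fin 7, r M ≠ 0 ∧ (∀ m, M < m → r m = 0) ∧
    v (W := W) (NV r) = exp (ordm M) := by
  unfold NV
  by_cases h6 : r 6 = 0
  · rw [h6]
    by_cases h5 : r 5 = 0
    · rw [h5]
      by_cases h4 : r 4 = 0
      · rw [h4]
        by_cases h3 : r 3 = 0
        · rw [h3]
          by_cases h2 : r 2 = 0
          · rw [h2]
            by_cases h1 : r 1 = 0
            · rw [h1]
              by_cases h0 : r 0 = 0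
              · left; funext j; fin_cases j <;> assumption
              · right
                refine ⟨0, h0, fun m hm => ?_, ?_⟩
                · fin_cases m <;> first | exact absurd hm (by decide) | assumption
                · unfold N7; simp only [map_zero, zero_mul, add_zero]; exact v_c h0
            · refine Or.inr ⟨1, h1, fun m hm => ?_, v2 h1⟩
              fin_cases m <;> first | exact absurd hm (by decide) | assumption
          · refine Or.inr ⟨2, h2, fun m hm => ?_, v3 h2⟩
            fin_cases m <;> first | exact absurd hm (by decide) | assumption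
        · refine Or.inr ⟨3, h3, fun m hm => ?_, v4 h3⟩
          fin_cases m <;> first | exact absurd hm (by decide) | assumption
      · refine Or.inr ⟨4, h4, fun m hm => ?_, v5 h4⟩
        fin_cases m <;> first | exact absurd hm (by decide) | assumption
    · refine Or.inr ⟨5, h5, fun m hm => ?_, v6 h5⟩
      fin_cases m <;> first | exact absurd hm (by decide) | assumption
  · refine Or.inr ⟨6, h6, fun m hm => ?_, v7 h6⟩
    fin_cases m <;> exact absurd hm (by decide)

end

section

variable {k : Type*} [Field k] {t : k}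

/-- **a zero of `f` at the origin**: the coefficients of `q g'/g` vanish -/
theorem van_K [CharZero k] (ht : t ≠ 0) (ht1 : t ≠ 1) {c₀ c₁ : k} (h0 : c₀ ≠ 0) (h1 : c₁ ≠ 0)
    {n n' : Fin 6 → ℤ} (h : cK c₀ * mo t n + cK c₁ * mo t n' = 1) (hn : 1 ≤ Dn n 0)
    (hn' : Dn n' 0 = 0) :
    ∃ M : Fin 7, ordm M = 7 - Dn n 0 ∧ ∀ m, M < m → RR t n' m = 0 := by
  have hc0 : (cK c₀ : K (W7 t)) ≠ 0 := ne_of_v (v_c h0)
  have hc1 : (cK c₁ : K (W7 t)) ≠ 0 := ne_of_v (v_c h1)
  have Lf : LC (cK c₀ * mo t n) (- Dn n 0) c₀ := by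
    have := (LC_c (W := W7 t) h0).mul (LC_mo t n); rwa [zero_add, mul_one] at this
  have Lg : LC (cK c₁ * mo t n') (- Dn n' 0) c₁ := by
    have := (LC_c (W := W7 t) h1).mul (LC_mo t n'); rwa [zero_add, mul_one] at this
  have lf : NV (RR t n) = qK t * ld (cK c₀ * mo t n) := by
    rw [ld_mul hc0 (mo_ne _ _), ld_c, zero_add, ld_mo]
  have lg : NV (RR t n') = qK t * ld (cK c₁ * mo t n') := by
    rw [ld_mul hc1 (mo_ne _ _), ld_c, zero_add, ld_mo]
  have key : ∀ r : Fin 7 → k, (NV r : K (W7 t)) = 0 ∨ ∃ i : ℤ, v (NV r : K (W7 t)) = exp i := by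
    intro r
    rcases v_NV (W := W7 t) r with rfl | ⟨i, hi, -⟩
    · exact Or.inl NV_zero
    · exact Or.inr ⟨i, hi⟩
  have top : RR t n 6 ≠ 0 := by
    rw [RR_top]
    intro h'
    have := Int.cast_eq_zero.mp h'
    omega
  have top' : RR t n' 6 = 0 := by rw [RR_top, hn']; simp
  rcases wr2 h lf lg Lf.v_eq Lg.v_eq (key _) (key _) (by rw [← NV_sub]; exact key _) with
    ⟨h2, h3⟩ | ⟨i, j, l, hi, hj, hl, e1, e2, h2⟩
  · exact absurd (by rw [NV_eq_zero h2]; rfl) top
  · have l7 : l = 7 := by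
      rw [← NV_sub] at hl
      rcases v_NV' (W := W7 t) (RR t n - RR t n') with h3 | ⟨M, hM, hM', hv⟩
      · rw [h3, NV_zero, map_zero] at hl; exact absurd hl.symm exp_ne_zero
      · rw [hl, exp_inj] at hv
        have : M = 6 := by
          by_contra hne
          have h4 := hM' 6 (lt_of_le_of_ne (Fin.le_last M) hne)
          rw [Pi.sub_apply, top', sub_zero] at h4
          exact top h4
        rw [hv, this]; rfl
    rcases v_NV' (W := W7 t) (RR t n') with h3 | ⟨M, hM, hM', hv⟩
    · rw [h3, NV_zero, map_zero] at hj; exact absurd hj.symm exp_ne_zero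
    · rw [hj, exp_inj] at hv
      exact ⟨M, by omega, hM'⟩

end

section F

variable {k : Type*} [Field k] {F : Type*} [Field F] [Algebra k F] {t : k} {x y : F}

/-- **a zero of `f` at `-sP`** -/
theorem van7 [CharZero k] (ht : t ≠ 0) (ht1 : t ≠ 1) (h : Gen (bb t) (cc t) x y) {c₀ c₁ : k}
    (h0 : c₀ ≠ 0) (h1 : c₁ ≠ 0) {e e' : Fin 7 → ℤ}
    (hu : algebraMap k F c₀ * mon t x y e + algebraMap k F c₁ * mon t x y e' = 1) (s : Fin 7)
    (hs : 1 ≤ OO e s) (hs' : OO e' s = 0) :
    ∃ M : Fin 7, ordm M = 7 - OO e s ∧ ∀ m, M < m → RR t (NN fun i => e' (i + s)) m = 0 := by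
  obtain ⟨x', y', h', hx⟩ := exists_shift ht ht1 h s
  rw [mon_shift s hx e, mon_shift s hx e', mon_eq h', mon_eq h', ← mul_assoc, ← mul_assoc,
    ← map_mul, ← map_mul, ← io_c h', ← io_c h', ← map_mul, ← map_mul, ← map_add] at hu
  have hu2 := io_inj h' (hu.trans (map_one _).symm)
  have n0 : Lc t c₀ e s ≠ 0 := mul_ne_zero h0
    (Finset.prod_ne_zero_iff.mpr fun i _ => zpow_ne_zero _ (lam_ne ht ht1 i))
  have n1 : Lc t c₁ e' s ≠ 0 := mul_ne_zero h1
    (Finset.prod_ne_zero_iff.mpr fun i _ => zpow_ne_zero _ (lam_ne ht ht1 i))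
  have sh : ∀ e : Fin 7 → ℤ, Dn (NN fun i => e (i + s)) 0 = OO e s := by
    intro e
    rw [Dn_NN]
    show e (-0 + 1 + s) + e (-0 - 1 + s) - 2 * e (-0 + s) = e (s + 1) + e (s - 1) - 2 * e s
    rw [show (-0 : Fin 7) + 1 + s = s + 1 by abel, show (-0 : Fin 7) - 1 + s = s - 1 by abel,
      show (-0 : Fin 7) + s = s by abel]
  have key := van_K ht ht1 (c₀ := Lc t c₀ e s) (c₁ := Lc t c₁ e' s) n0 n1 hu2
    (by rw [sh]; exact hs) (by rw [sh]; exact hs')
  rw [sh] at key
  exact key

end F

end Pool.Agent.K7
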